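import Pool.Agent.Run7.h300.PV.AFEV

/-!
# Project PV (helper343), piece AFE
-/

set_option autoImplicit false

namespace Pool.Agent.Run7.h300.PV

open Pool.Agent.Run7.h343.PV MeasureTheory

/-- the cutoff in the logarithmic variable -/
noncomputable def ph (q : ℕ) (v : ℝ) : ℝ := V (Real.exp v / q)

theorem ph_anti (q : ℕ) : Antitone (ph q) := fun a b hab =>
  V_anti (by positivity) (div_le_div_of_nonneg_right (Real.exp_le_exp.2 hab) (Nat.cast_nonneg _))

theorem ph_nonneg (q : ℕ) (v : ℝ) : 0 ≤ ph q v := V_nonneg (by positivity)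

theorem ph_le_one (q : ℕ) (v : ℝ) : ph q v ≤ 1 := V_le_one (by positivity)

theorem ph_meas (q : ℕ) : Measurable (ph q) := (ph_anti q).measurable

theorem ph_ii (q : ℕ) (c a b : ℝ) : IntervalIntegrable (fun u => ph q (c + u)) volume a b := by
  have h : Antitone fun u => ph q (c + u) := fun x y hxy => ph_anti q (by linarith)
  exact h.intervalIntegrable

theorem ph_ii' (q : ℕ) (a b : ℝ) : IntervalIntegrable (ph q) volume a b :=
  (ph_anti q).intervalIntegrable

/-- the averaged cutoff -/
noncomputable def ww (q : ℕ) (U t : ℝ) : ℝ := (∫ u in (-U)..U, ph q (2 * t + u)) / (2 * U)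

theorem ww_ge (q : ℕ) {U : ℝ} (hU : 0 < U) (t : ℝ) : ph q (2 * t + U) ≤ ww q U t := by
  unfold ww
  rw [le_div_iff₀ (by linarith)]
  have h : ∫ _u in (-U)..U, ph q (2 * t + U) = ph q (2 * t + U) * (2 * U) := by
    rw [intervalIntegral.integral_const, smul_eq_mul]
    ring
  rw [← h]
  refine intervalIntegral.integral_mono_on (by linarith) intervalIntegrable_const (ph_ii q _ _ _)
    fun u hu => ph_anti q (by linarith [hu.2])

theorem ww_le (q : ℕ) {U : ℝ} (hU : 0 < U) (t : ℝ) : ww q U t ≤ ph q (2 * t - U) := by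
  unfold ww
  rw [div_le_iff₀ (by linarith)]
  have h : ∫ _u in (-U)..U, ph q (2 * t - U) = ph q (2 * t - U) * (2 * U) := by
    rw [intervalIntegral.integral_const, smul_eq_mul]
    ring
  rw [← h]
  refine intervalIntegral.integral_mono_on (by linarith) (ph_ii q _ _ _) intervalIntegrable_const
    fun u hu => ph_anti q (by linarith [hu.1])

theorem ww_sub (q : ℕ) {U : ℝ} (hU : 0 < U) {s t : ℝ} (hst : t ≤ s) :
    0 ≤ ww q U t - ww q U s ∧ ww q U t - ww q U s ≤ (s - t) / U := by
  unfold ww
  rw [← sub_div, ← intervalIntegral.integral_sub (ph_ii q _ _ _) (ph_ii q _ _ _)]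
  constructor
  · refine div_nonneg (intervalIntegral.integral_nonneg (by linarith) fun u _ => ?_) (by linarith)
    exact sub_nonneg.2 (ph_anti q (by linarith))
  · rw [intervalIntegral.integral_sub (ph_ii q _ _ _) (ph_ii q _ _ _)]
    have e : ∀ c, ∫ u in (-U)..U, ph q (c + u) = ∫ u in (c + -U)..(c + U), ph q u := fun c =>
      intervalIntegral.integral_comp_add_left (ph q) c
    rw [e, e, intervalIntegral.integral_interval_sub_interval_comm (ph_ii' q _ _) (ph_ii' q _ _)
      (ph_ii' q _ _)]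
    have h1 : ∫ u in (2 * t + -U)..(2 * s + -U), ph q u ≤ 2 * (s - t) := by
      have h : ∫ _u in (2 * t + -U)..(2 * s + -U), (1 : ℝ) = 2 * (s - t) := by
        rw [intervalIntegral.integral_const, smul_eq_mul]
        ring
      rw [← h]
      exact intervalIntegral.integral_mono_on (by linarith) (ph_ii' q _ _)
        intervalIntegrable_const fun u _ => ph_le_one q u
    have h2 : 0 ≤ ∫ u in (2 * t + U)..(2 * s + U), ph q u :=
      intervalIntegral.integral_nonneg (by linarith) fun u _ => ph_nonneg q u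
    rw [div_le_iff₀ (by linarith)]
    have h3 : (s - t) / U * (2 * U) = 2 * (s - t) := by
      field_simp
    rw [h3]
    linarith

theorem ww_lip (q : ℕ) {U : ℝ} (hU : 0 < U) (s t : ℝ) : |ww q U s - ww q U t| ≤ |s - t| / U := by
  rcases le_total t s with h | h
  · have := ww_sub q hU h
    rw [abs_sub_comm, abs_of_nonneg this.1, abs_of_nonneg (sub_nonneg.2 h)]
    exact this.2
  · have := ww_sub q hU h
    rw [abs_of_nonneg this.1, abs_sub_comm s t, abs_of_nonneg (sub_nonneg.2 h)]
    exact this.2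

theorem arg1 (q n : ℕ) (hn : n ≠ 0) (u : ℝ) :
    (n : ℝ) ^ 2 * Real.exp u / q = Real.exp (2 * Real.log n + u) / q := by
  have h0 : (0 : ℝ) < n := by exact_mod_cast Nat.pos_of_ne_zero hn
  rw [Real.exp_add, two_mul, Real.exp_add, Real.exp_log h0]
  ring

theorem arg2 (q n : ℕ) (hn : n ≠ 0) (u : ℝ) :
    (n : ℝ) ^ 2 / (Real.exp u * q) = Real.exp (2 * Real.log n + -u) / q := by
  rw [← arg1 q n hn, Real.exp_neg]
  field_simp

/-- the terms -/
noncomputable def tm (q : ℕ) (u : ℝ) (n : ℕ) : ℝ := ph q (2 * Real.log n + u) / Real.sqrt n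

theorem tm1 (q n : ℕ) (u : ℝ) : V ((n : ℝ) ^ 2 * Real.exp u / q) / Real.sqrt n = tm q u n := by
  rcases eq_or_ne n 0 with rfl | hn
  · simp [tm]
  · unfold tm ph
    rw [arg1 q n hn]

theorem tm2 (q n : ℕ) (u : ℝ) : V ((n : ℝ) ^ 2 / (Real.exp u * q)) / Real.sqrt n = tm q (-u) n := by
  rcases eq_or_ne n 0 with rfl | hn
  · simp [tm]
  · unfold tm ph
    rw [arg2 q n hn]

theorem tm_nonneg (q n : ℕ) (u : ℝ) : 0 ≤ tm q u n := by
  unfold tm
  have := ph_nonneg q (2 * Real.log n + u)
  positivity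

theorem tm_le (q n : ℕ) {u U : ℝ} (h : -U ≤ u) : tm q u n ≤ tm q (-U) n := by
  unfold tm
  exact div_le_div_of_nonneg_right (ph_anti q (by linarith)) (Real.sqrt_nonneg _)

theorem tm_meas (q n : ℕ) : Measurable fun u => tm q u n := by
  unfold tm
  exact ((ph_meas q).comp (measurable_const_add _)).div_const _

theorem tm_int (q n : ℕ) {U : ℝ} (hU : 0 < U) :
    ∫ u in (-U)..U, tm q u n = 2 * U * (ww q U (Real.log n) / Real.sqrt n) := by
  unfold tm ww
  rw [intervalIntegral.integral_div]
  field_simp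

theorem tm_int' (q n : ℕ) {U : ℝ} (hU : 0 < U) :
    ∫ u in (-U)..U, tm q (-u) n = 2 * U * (ww q U (Real.log n) / Real.sqrt n) := by
  rw [← tm_int q n hU, intervalIntegral.integral_comp_neg fun u => tm q u n, neg_neg]

theorem tm_ii (q n : ℕ) (a b : ℝ) : IntervalIntegrable (fun u => ((tm q u n : ℝ) : ℂ)) volume a b := by
  have h : IntervalIntegrable (fun u => tm q u n) volume a b := by
    unfold tm
    exact (ph_ii q _ a b).div_const _
  exact ⟨Integrable.ofReal h.1, Integrable.ofReal h.2⟩

theorem tm_ii' (q n : ℕ) (a b : ℝ) :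
    IntervalIntegrable (fun u => ((tm q (-u) n : ℝ) : ℂ)) volume a b := by
  have h : IntervalIntegrable (fun u => tm q (-u) n) volume a b := by
    have h1 : Monotone fun u => ph q (2 * Real.log n + -u) := fun x y hxy =>
      ph_anti q (by linarith)
    unfold tm
    exact h1.intervalIntegrable.div_const _
  exact ⟨Integrable.ofReal h.1, Integrable.ofReal h.2⟩

theorem t_AFE (h0 : S_AFE0) : S_AFE := by
  intro q _ hq U hU
  have hU0 : 0 < U := by linarith
  refine ⟨ww q U, ?_, fun s t => ww_lip q hU0 s t, ?_, ?_, ?_⟩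
  · intro t
    exact ⟨(ph_nonneg q _).trans (ww_ge q hU0 t), (ww_le q hU0 t).trans (ph_le_one q _)⟩
  · intro t
    have h1 := ww_ge q hU0 t
    have h2 := V_low (y := Real.exp (2 * t + U) / q) (by positivity)
    unfold ph at h1
    linarith
  · intro t
    exact (ww_le q hU0 t).trans (V_up (by positivity))
  · intro ψ hψ hev
    set ε : ℂ := ψ.rootNumber with hε
    -- summability
    have hs : ∀ u : ℝ, Summable fun n : ℕ => ‖ψ (n : ZMod q)‖ * tm q u n := by
      intro u
      have := (h0 q hq ψ hψ hev (Real.exp u) (Real.exp_pos u)).1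
      refine this.congr fun n => ?_
      rw [tm1]
    have hL : ∀ u : ℝ, ψ.LFunction (1 / 2) =
        ∑' n : ℕ, ψ (n : ZMod q) * ((tm q u n : ℝ) : ℂ) +
        ε * ∑' n : ℕ, (starRingEnd ℂ) (ψ (n : ZMod q)) * ((tm q (-u) n : ℝ) : ℂ) := by
      intro u
      have := (h0 q hq ψ hψ hev (Real.exp u) (Real.exp_pos u)).2
      rw [this]
      congr 1
      · exact tsum_congr fun n => by rw [tm1]
      · congr 1
        exact tsum_congr fun n => by rw [tm2]
    have hn1 : ∀ (n : ℕ) (r : ℝ), 0 ≤ r → ‖ψ (n : ZMod q) * (r : ℂ)‖ = ‖ψ (n : ZMod q)‖ * r := by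
      intro n r hr
      rw [norm_mul, Complex.norm_real, Real.norm_of_nonneg hr]
    have hn2 : ∀ (n : ℕ) (r : ℝ), 0 ≤ r →
        ‖(starRingEnd ℂ) (ψ (n : ZMod q)) * (r : ℂ)‖ = ‖ψ (n : ZMod q)‖ * r := by
      intro n r hr
      rw [norm_mul, Complex.norm_real, Real.norm_of_nonneg hr, RCLike.norm_conj]
    have hsum : ∀ u : ℝ, HasSum (fun n : ℕ => ψ (n : ZMod q) * ((tm q u n : ℝ) : ℂ) +
        ε * ((starRingEnd ℂ) (ψ (n : ZMod q)) * ((tm q (-u) n : ℝ) : ℂ))) (ψ.LFunction (1 / 2)) := by
      intro u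
      rw [hL u]
      refine HasSum.add ?_ (HasSum.mul_left ε ?_)
      · refine (Summable.of_norm ?_).hasSum
        exact (hs u).congr fun n => (hn1 n _ (tm_nonneg q n u)).symm
      · refine (Summable.of_norm ?_).hasSum
        exact (hs (-u)).congr fun n => (hn2 n _ (tm_nonneg q n (-u))).symm
    have hint : HasSum (fun n : ℕ => ∫ u in (-U)..U, (ψ (n : ZMod q) * ((tm q u n : ℝ) : ℂ) +
        ε * ((starRingEnd ℂ) (ψ (n : ZMod q)) * ((tm q (-u) n : ℝ) : ℂ))))
        (∫ _u in (-U)..U, ψ.LFunction (1 / 2)) := by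
      refine intervalIntegral.hasSum_integral_of_dominated_convergence
        (fun n _ => (1 + ‖ε‖) * (‖ψ (n : ZMod q)‖ * tm q (-U) n)) ?_ ?_ ?_ ?_ ?_
      · intro n
        refine Measurable.aestronglyMeasurable ?_
        have m1 : Measurable fun u => ((tm q u n : ℝ) : ℂ) :=
          Complex.measurable_ofReal.comp (tm_meas q n)
        have m2 : Measurable fun u => ((tm q (-u) n : ℝ) : ℂ) :=
          Complex.measurable_ofReal.comp ((tm_meas q n).comp measurable_neg)
        exact (m1.const_mul _).add ((m2.const_mul _).const_mul _)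
      · intro n
        refine Filter.Eventually.of_forall fun u hu => ?_
        rw [Set.uIoc_of_le (by linarith)] at hu
        refine (norm_add_le _ _).trans ?_
        rw [norm_mul ε, hn1 n _ (tm_nonneg q n u), hn2 n _ (tm_nonneg q n (-u))]
        have k1 := tm_le q n (u := u) (U := U) hu.1.le
        have k2 := tm_le q n (u := -u) (U := U) (by linarith [hu.2])
        have k3 := norm_nonneg (ψ (n : ZMod q))
        have k4 := norm_nonneg ε
        have k5 := mul_le_mul_of_nonneg_left k1 k3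
        have k6 := mul_le_mul_of_nonneg_left (mul_le_mul_of_nonneg_left k2 k3) k4
        linarith
      · exact Filter.Eventually.of_forall fun u _ => (hs (-U)).mul_left _
      · exact intervalIntegrable_const
      · exact Filter.Eventually.of_forall fun u _ => hsum u
    have hfin : ∀ n : ℕ, ∫ u in (-U)..U, (ψ (n : ZMod q) * ((tm q u n : ℝ) : ℂ) +
        ε * ((starRingEnd ℂ) (ψ (n : ZMod q)) * ((tm q (-u) n : ℝ) : ℂ))) =
        (2 * U : ℝ) * (ψ (n : ZMod q) * ((ww q U (Real.log n) / Real.sqrt n : ℝ) : ℂ) +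
          ε * ((starRingEnd ℂ) (ψ (n : ZMod q)) *
            ((ww q U (Real.log n) / Real.sqrt n : ℝ) : ℂ))) := by
      intro n
      rw [intervalIntegral.integral_add ((tm_ii q n _ _).const_mul _)
        (((tm_ii' q n _ _).const_mul _).const_mul _), intervalIntegral.integral_const_mul,
        intervalIntegral.integral_const_mul, intervalIntegral.integral_const_mul,
        intervalIntegral.integral_ofReal, intervalIntegral.integral_ofReal, tm_int q n hU0,
        tm_int' q n hU0]
      push_cast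
      ring
    simp_rw [hfin] at hint
    rw [intervalIntegral.integral_const, sub_neg_eq_add, ← two_mul, Complex.real_smul] at hint
    have h2U : ((2 * U : ℝ) : ℂ) ≠ 0 := by
      exact_mod_cast (by linarith : (2 * U : ℝ) ≠ 0)
    have hres := (hasSum_mul_left_iff h2U).1 hint
    have hwn : ∀ n : ℕ, 0 ≤ ww q U (Real.log n) / Real.sqrt n := fun n =>
      div_nonneg ((ph_nonneg q _).trans (ww_ge q hU0 _)) (Real.sqrt_nonneg _)
    have hwb : Summable fun n : ℕ => ‖ψ (n : ZMod q)‖ * (ww q U (Real.log n) / Real.sqrt n) := by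
      refine Summable.of_nonneg_of_le (fun n => mul_nonneg (norm_nonneg _) (hwn n)) (fun n => ?_)
        (hs (-U))
      refine mul_le_mul_of_nonneg_left ?_ (norm_nonneg _)
      unfold tm
      refine div_le_div_of_nonneg_right ?_ (Real.sqrt_nonneg _)
      have := ww_le q hU0 (Real.log n)
      rwa [sub_eq_add_neg] at this
    have s1 : Summable fun n : ℕ => ψ (n : ZMod q) *
        ((ww q U (Real.log n) / Real.sqrt n : ℝ) : ℂ) :=
      Summable.of_norm (hwb.congr fun n => (hn1 n _ (hwn n)).symm)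
    have s2 : Summable fun n : ℕ => (starRingEnd ℂ) (ψ (n : ZMod q)) *
        ((ww q U (Real.log n) / Real.sqrt n : ℝ) : ℂ) :=
      Summable.of_norm (hwb.congr fun n => (hn2 n _ (hwn n)).symm)
    rw [← hres.tsum_eq, s1.tsum_add (s2.mul_left ε), tsum_mul_left]

end Pool.Agent.Run7.h300.PV
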