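import Pool.Agent.Run7.h343.PV.Iface

/-!
# Project PV (helper343): properties of the cutoff `V`
-/

set_option autoImplicit false

namespace Pool.Agent.Run7.h300.PV

open Pool.Agent.Run7.h343.PV MeasureTheory

/-- the density -/
noncomputable def kf (x : ℝ) : ℝ := x ^ (-(3 / 4) : ℝ) * Real.exp (-x)

theorem kf_int : IntegrableOn kf (Set.Ioi 0) := by
  have h := Real.GammaIntegral_convergent (s := 1 / 4) (by norm_num)
  refine h.congr_fun (fun x _ => ?_) measurableSet_Ioi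
  unfold kf
  rw [mul_comm]
  norm_num

theorem kf_nonneg {x : ℝ} (hx : 0 ≤ x) : 0 ≤ kf x := by
  unfold kf
  positivity

theorem Gam_eq : Real.Gamma (1 / 4) = ∫ x in Set.Ioi (0 : ℝ), kf x := by
  rw [Real.Gamma_eq_integral (by norm_num)]
  refine setIntegral_congr_fun measurableSet_Ioi fun x _ => ?_
  unfold kf
  rw [mul_comm]
  norm_num

theorem V_eq (y : ℝ) : V y = (∫ x in Set.Ioi (Real.pi * y), kf x) / Real.Gamma (1 / 4) := rfl

theorem kf_int' {a : ℝ} (ha : 0 ≤ a) : IntegrableOn kf (Set.Ioi a) :=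
  kf_int.mono_set (Set.Ioi_subset_Ioi ha)

theorem kf_intc (a b : ℝ) (ha : 0 ≤ a) : IntegrableOn kf (Set.Ioc a b) :=
  kf_int.mono_set (fun x hx => lt_of_le_of_lt ha hx.1)

theorem Gam_ge : (16 / 5 : ℝ) ≤ Real.Gamma (1 / 4) := by
  rw [Gam_eq]
  have h1 : ∫ x in Set.Ioc (0 : ℝ) 1, kf x ≤ ∫ x in Set.Ioi (0 : ℝ), kf x := by
    refine setIntegral_mono_set kf_int ?_ ?_
    · refine (ae_restrict_iff' measurableSet_Ioi).2 (Filter.Eventually.of_forall fun x hx => ?_)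
      exact kf_nonneg (le_of_lt hx)
    · exact Filter.Eventually.of_forall fun x hx => hx.1
  refine le_trans ?_ h1
  have i1 : IntervalIntegrable (fun x : ℝ => x ^ (-(3 / 4) : ℝ)) volume 0 1 :=
    intervalIntegral.intervalIntegrable_rpow' (by norm_num)
  have i2 : IntervalIntegrable (fun x : ℝ => x ^ (1 / 4 : ℝ)) volume 0 1 :=
    intervalIntegral.intervalIntegrable_rpow' (by norm_num)
  have h2 : ∫ x in (0 : ℝ)..1, (x ^ (-(3 / 4) : ℝ) - x ^ (1 / 4 : ℝ)) = 16 / 5 := by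
    rw [intervalIntegral.integral_sub i1 i2, integral_rpow (Or.inl (by norm_num)),
      integral_rpow (Or.inl (by norm_num))]
    norm_num
  rw [← h2, intervalIntegral.integral_of_le (by norm_num)]
  refine setIntegral_mono_on ?_ (kf_intc 0 1 le_rfl) measurableSet_Ioc fun x hx => ?_
  · have := i1.sub i2
    rwa [intervalIntegrable_iff_integrableOn_Ioc_of_le (by norm_num)] at this
  · unfold kf
    have h3 : x ^ (1 / 4 : ℝ) = x ^ (-(3 / 4) : ℝ) * x := by
      rw [← Real.rpow_add_one hx.1.ne']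
      norm_num
    have h4 : 1 - x ≤ Real.exp (-x) := by
      have := Real.add_one_le_exp (-x)
      linarith
    have h5 : 0 ≤ x ^ (-(3 / 4) : ℝ) := Real.rpow_nonneg hx.1.le _
    rw [h3]
    nlinarith

theorem Gam_pos : 0 < Real.Gamma (1 / 4) := by linarith [Gam_ge]

theorem V_zero : V 0 = 1 := by
  rw [V_eq, mul_zero, ← Gam_eq, div_self Gam_pos.ne']

theorem V_anti {y z : ℝ} (hy : 0 ≤ y) (hyz : y ≤ z) : V z ≤ V y := by
  rw [V_eq, V_eq]
  refine div_le_div_of_nonneg_right ?_ Gam_pos.le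
  have h0 : 0 ≤ Real.pi * y := by positivity
  refine setIntegral_mono_set (kf_int' h0) ?_ ?_
  · refine (ae_restrict_iff' measurableSet_Ioi).2 (Filter.Eventually.of_forall fun x hx => ?_)
    exact kf_nonneg (h0.trans (le_of_lt hx))
  · exact Filter.Eventually.of_forall
      (Set.Ioi_subset_Ioi (mul_le_mul_of_nonneg_left hyz Real.pi_pos.le))

theorem V_nonneg {y : ℝ} (hy : 0 ≤ y) : 0 ≤ V y := by
  rw [V_eq]
  refine div_nonneg (setIntegral_nonneg measurableSet_Ioi fun x hx => ?_) Gam_pos.le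
  exact kf_nonneg (le_of_lt (lt_of_le_of_lt (by positivity) hx))

theorem V_le_one {y : ℝ} (hy : 0 ≤ y) : V y ≤ 1 := by
  rw [← V_zero]
  exact V_anti le_rfl hy

theorem V_low {y : ℝ} (hy : 0 ≤ y) : 1 - V y ≤ 2 * y ^ (1 / 4 : ℝ) := by
  have h0 : 0 ≤ Real.pi * y := by positivity
  have h1 : ∫ x in Set.Ioi (0 : ℝ), kf x =
      (∫ x in Set.Ioc (0 : ℝ) (Real.pi * y), kf x) + ∫ x in Set.Ioi (Real.pi * y), kf x := by
    rw [← Set.Ioc_union_Ioi_eq_Ioi h0]
    exact setIntegral_union (Set.Ioc_disjoint_Ioi le_rfl) measurableSet_Ioi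
      (kf_intc 0 _ le_rfl) (kf_int' h0)
  have h2 : 1 - V y = (∫ x in Set.Ioc (0 : ℝ) (Real.pi * y), kf x) / Real.Gamma (1 / 4) := by
    rw [V_eq, eq_div_iff Gam_pos.ne', sub_mul, div_mul_cancel₀ _ Gam_pos.ne', one_mul]
    nth_rewrite 1 [Gam_eq]
    rw [h1]
    ring
  rw [h2, div_le_iff₀ Gam_pos]
  have i1 : IntervalIntegrable (fun x : ℝ => x ^ (-(3 / 4) : ℝ)) volume 0 (Real.pi * y) :=
    intervalIntegral.intervalIntegrable_rpow' (by norm_num)
  have h3 : ∫ x in Set.Ioc (0 : ℝ) (Real.pi * y), kf x ≤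
      ∫ x in Set.Ioc (0 : ℝ) (Real.pi * y), x ^ (-(3 / 4) : ℝ) := by
    refine setIntegral_mono_on (kf_intc 0 _ le_rfl) ?_ measurableSet_Ioc fun x hx => ?_
    · rwa [intervalIntegrable_iff_integrableOn_Ioc_of_le h0] at i1
    · unfold kf
      have h4 : Real.exp (-x) ≤ 1 := by
        rw [Real.exp_le_one_iff]
        linarith [hx.1]
      have h5 : 0 ≤ x ^ (-(3 / 4) : ℝ) := Real.rpow_nonneg hx.1.le _
      nlinarith
  have h6 : ∫ x in Set.Ioc (0 : ℝ) (Real.pi * y), x ^ (-(3 / 4) : ℝ) =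
      4 * (Real.pi * y) ^ (1 / 4 : ℝ) := by
    rw [← intervalIntegral.integral_of_le h0, integral_rpow (Or.inl (by norm_num))]
    norm_num
    ring
  rw [h6, Real.mul_rpow Real.pi_pos.le hy] at h3
  have h7 : Real.pi ^ (1 / 4 : ℝ) ≤ 8 / 5 := by
    have h8 : Real.pi ≤ (8 / 5 : ℝ) ^ (4 : ℝ) := by
      norm_num
      linarith [Real.pi_lt_d2]
    calc Real.pi ^ (1 / 4 : ℝ) ≤ ((8 / 5 : ℝ) ^ (4 : ℝ)) ^ (1 / 4 : ℝ) :=
          Real.rpow_le_rpow Real.pi_pos.le h8 (by norm_num)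
      _ = 8 / 5 := by
          rw [← Real.rpow_mul (by norm_num)]
          norm_num
  have h9 : 0 ≤ y ^ (1 / 4 : ℝ) := Real.rpow_nonneg hy _
  have h10 := Gam_ge
  nlinarith [mul_nonneg h9 (sub_nonneg.2 h7), mul_nonneg h9 (sub_nonneg.2 h10)]

theorem V_up {y : ℝ} (hy : 0 ≤ y) : V y ≤ 2 * Real.exp (-y) := by
  rcases le_total y (1 / 2) with h | h
  · refine (V_le_one hy).trans ?_
    have h1 : Real.exp (-(1 / 2)) ≤ Real.exp (-y) := Real.exp_le_exp.2 (by linarith)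
    have h2 : 1 - 1 / 2 ≤ Real.exp (-(1 / 2)) := by
      have := Real.add_one_le_exp (-(1 / 2 : ℝ))
      linarith
    linarith
  · have h0 : 1 ≤ Real.pi * y := by nlinarith [Real.pi_gt_three]
    have h1 : ∫ x in Set.Ioi (Real.pi * y), kf x ≤ ∫ x in Set.Ioi (Real.pi * y), Real.exp (-x) := by
      refine setIntegral_mono_on (kf_int' (by linarith)) ?_ measurableSet_Ioi fun x hx => ?_
      · exact integrableOn_exp_neg_Ioi _
      · have hx1 : 1 ≤ x := h0.trans (le_of_lt hx)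
        have h2 : x ^ (-(3 / 4) : ℝ) ≤ 1 := Real.rpow_le_one_of_one_le_of_nonpos hx1 (by norm_num)
        unfold kf
        nlinarith [Real.exp_pos (-x)]
    rw [integral_exp_neg_Ioi] at h1
    rw [V_eq, div_le_iff₀ Gam_pos]
    have h3 : Real.exp (-(Real.pi * y)) ≤ Real.exp (-y) := by
      refine Real.exp_le_exp.2 ?_
      nlinarith [Real.pi_gt_three]
    have h4 := Gam_ge
    nlinarith [Real.exp_pos (-y)]

end Pool.Agent.Run7.h300.PV
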