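import Pool.Agent.Run7.h343.PV.Iface2

/-!
# Project PV (helper343), piece OFF2
-/

set_option autoImplicit false

namespace Pool.Agent.Run7.h300.PV

open Pool.Agent.Run7.h343.PV

theorem norm_chi {p ν : ℕ} (χ : DirichletCharacter ℂ (p ^ ν)) {g : ℕ} (hg : g.Coprime p) :
    ‖χ ((g : ℕ) : ZMod (p ^ ν))‖ = 1 := by
  have h := χ.unit_norm_eq_one (ZMod.unitOfCoprime g (hg.pow_right ν))
  rwa [ZMod.coe_unitOfCoprime] at h

theorem chi_mul {p ν : ℕ} (χ : DirichletCharacter ℂ (p ^ ν)) {g : ℕ} (hg : g.Coprime p) (u v : ℕ) :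
    χ ((u * g : ℕ) : ZMod (p ^ ν)) * (starRingEnd ℂ) (χ ((v * g : ℕ) : ZMod (p ^ ν))) =
      χ (u : ZMod (p ^ ν)) * (starRingEnd ℂ) (χ (v : ZMod (p ^ ν))) := by
  rw [Nat.cast_mul, Nat.cast_mul, map_mul, map_mul, map_mul]
  have h := Complex.mul_conj' (χ ((g : ℕ) : ZMod (p ^ ν)))
  rw [norm_chi χ hg, Complex.ofReal_one, one_pow] at h
  calc _ = χ (u : ZMod (p ^ ν)) * (starRingEnd ℂ) (χ (v : ZMod (p ^ ν))) *
        (χ ((g : ℕ) : ZMod (p ^ ν)) * (starRingEnd ℂ) (χ ((g : ℕ) : ZMod (p ^ ν)))) := by ring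
    _ = _ := by rw [h, mul_one]

theorem lt_of_h_ne {h : ℝ → ℝ} {X : ℝ} (hX : 0 < X) (hhi : ∀ t, Real.log X ≤ t → h t = 0) {n : ℕ}
    (h0 : h (Real.log n) ≠ 0) : (n : ℝ) < X := by
  by_contra hc
  push Not at hc
  exact h0 (hhi _ (Real.log_le_log hX hc))

theorem t_OFF2 (h1 : S_OFF1) : S_OFF2 := by
  intro p ν m χ x X Λ Z h l₁ l₂ N hp hp2 hm hν hχ hx hxX hXN hΛ hh hL hlo hhi hl₁ hl₂ hZ₁ hZ₂ hc₁ hc₂
    hZX
  obtain ⟨a, b, hab, ha, hb⟩ := Nat.exists_coprime l₁ l₂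
  have hg : 0 < Nat.gcd l₁ l₂ := Nat.gcd_pos_of_pos_left _ hl₁
  generalize Nat.gcd l₁ l₂ = g at ha hb hg
  subst ha hb
  have ha1 : 1 ≤ a := Nat.pos_of_ne_zero fun h0 => by simp [h0] at hl₁
  have hb1 : 1 ≤ b := Nat.pos_of_ne_zero fun h0 => by simp [h0] at hl₂
  have haZ : (a : ℝ) ≤ Z := by
    refine le_trans ?_ hZ₁
    exact_mod_cast Nat.le_mul_of_pos_right a hg
  have hbZ : (b : ℝ) ≤ Z := by
    refine le_trans ?_ hZ₂
    exact_mod_cast Nat.le_mul_of_pos_right b hg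
  have hap : a.Coprime p := Nat.Coprime.coprime_dvd_left (Dvd.intro _ rfl) hc₁
  have hbp : b.Coprime p := Nat.Coprime.coprime_dvd_left (Dvd.intro _ rfl) hc₂
  have hgp : g.Coprime p := Nat.Coprime.coprime_dvd_left (Dvd.intro_left _ rfl) hc₁
  have hX0 : 0 < X := by linarith
  have hZ1 : 1 ≤ Z := le_trans (by exact_mod_cast ha1) haZ
  have hZ0 : 0 < Z := by linarith
  have hp0 : (0 : ℝ) < p := by exact_mod_cast hp.pos
  have hpm : (0 : ℝ) < (p : ℝ) ^ m := by positivity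
  have hK0 : 0 ≤ Z * X / (p : ℝ) ^ m := by positivity
  obtain ⟨K, hK⟩ : ∃ K : ℕ, K = ⌊Z * X / (p : ℝ) ^ m⌋₊ := ⟨_, rfl⟩
  have hKle : (K : ℝ) ≤ Z * X / (p : ℝ) ^ m := by
    rw [hK]
    exact Nat.floor_le hK0
  set HH : Finset ℤ := (Finset.Icc (-(K : ℤ)) K).erase 0 with hHH
  have hcard : HH.card = 2 * K := by
    rw [hHH, Finset.card_erase_of_mem (by simp), Int.card_Icc]
    omega
  -- the identity for the terms
  have hterm : ∀ n₁ ∈ Finset.Icc 1 N, ∀ n₂ ∈ Finset.Icc 1 N,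
      (if ((p ^ m : ℕ) : ℤ) ∣ ((a * g : ℕ) : ℤ) * n₁ - ((b * g : ℕ) : ℤ) * n₂ ∧
          a * g * n₁ ≠ b * g * n₂ then
        χ ((a * g * n₁ : ℕ) : ZMod (p ^ ν)) *
          (starRingEnd ℂ) (χ ((b * g * n₂ : ℕ) : ZMod (p ^ ν))) *
          ((h (Real.log n₁) / Real.sqrt n₁ * (h (Real.log n₂) / Real.sqrt n₂) : ℝ) : ℂ) else 0) =
      ∑ H ∈ HH, if (a : ℤ) * n₁ - b * n₂ = (p : ℤ) ^ m * H then
        χ ((a * n₁ : ℕ) : ZMod (p ^ ν)) * (starRingEnd ℂ) (χ ((b * n₂ : ℕ) : ZMod (p ^ ν))) *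
          ((h (Real.log n₁) / Real.sqrt n₁ * (h (Real.log n₂) / Real.sqrt n₂) : ℝ) : ℂ) else 0 := by
    intro n₁ hn₁ n₂ hn₂
    rw [Finset.mem_Icc] at hn₁ hn₂
    have echi : χ ((a * g * n₁ : ℕ) : ZMod (p ^ ν)) *
          (starRingEnd ℂ) (χ ((b * g * n₂ : ℕ) : ZMod (p ^ ν))) =
        χ ((a * n₁ : ℕ) : ZMod (p ^ ν)) * (starRingEnd ℂ) (χ ((b * n₂ : ℕ) : ZMod (p ^ ν))) := by
      rw [← chi_mul χ hgp (a * n₁) (b * n₂), mul_right_comm a g n₁, mul_right_comm b g n₂]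
    rw [echi]
    by_cases hF : h (Real.log n₁) / Real.sqrt n₁ * (h (Real.log n₂) / Real.sqrt n₂) = 0
    · rw [hF]
      simp
    have hF1 : h (Real.log n₁) ≠ 0 := fun h0 => hF (by rw [h0]; simp)
    have hF2 : h (Real.log n₂) ≠ 0 := fun h0 => hF (by rw [h0]; simp)
    have hn₁X := lt_of_h_ne hX0 hhi hF1
    have hn₂X := lt_of_h_ne hX0 hhi hF2
    have ecast : ((a * g : ℕ) : ℤ) * n₁ - ((b * g : ℕ) : ℤ) * n₂ = (g : ℤ) * ((a : ℤ) * n₁ - b * n₂) := by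
      push_cast
      ring
    have hcop : IsCoprime (((p ^ m : ℕ) : ℤ)) (g : ℤ) :=
      Nat.isCoprime_iff_coprime.2 ((hgp.pow_right m).symm)
    by_cases hc : ((p ^ m : ℕ) : ℤ) ∣ ((a * g : ℕ) : ℤ) * n₁ - ((b * g : ℕ) : ℤ) * n₂ ∧
          a * g * n₁ ≠ b * g * n₂
    · rw [if_pos hc]
      obtain ⟨hd, hne⟩ := hc
      rw [ecast] at hd
      obtain ⟨H, hH⟩ := hcop.dvd_of_dvd_mul_left hd
      have hH0 : H ≠ 0 := by
        rintro rfl
        rw [mul_zero] at hH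
        apply hne
        have h3 : (a : ℤ) * n₁ = b * n₂ := by linarith
        have h4 : a * n₁ = b * n₂ := by exact_mod_cast h3
        calc a * g * n₁ = g * (a * n₁) := by ring
          _ = g * (b * n₂) := by rw [h4]
          _ = b * g * n₂ := by ring
      have hHabs : (p : ℝ) ^ m * |(H : ℝ)| ≤ Z * X := by
        have e : (a : ℝ) * n₁ - b * n₂ = (p : ℝ) ^ m * H := by exact_mod_cast hH
        have e2 : (p : ℝ) ^ m * |(H : ℝ)| = |(a : ℝ) * n₁ - b * n₂| := by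
          rw [e, abs_mul, abs_of_pos hpm]
        rw [e2, abs_le]
        have k1 : (a : ℝ) * n₁ ≤ Z * X := mul_le_mul haZ hn₁X.le (Nat.cast_nonneg _) hZ0.le
        have k2 : (b : ℝ) * n₂ ≤ Z * X := mul_le_mul hbZ hn₂X.le (Nat.cast_nonneg _) hZ0.le
        have k3 : (0 : ℝ) ≤ (a : ℝ) * n₁ := by positivity
        have k4 : (0 : ℝ) ≤ (b : ℝ) * n₂ := by positivity
        constructor <;> linarith
      have hHK : |H| ≤ (K : ℤ) := by
        have h5 : ((H.natAbs : ℕ) : ℝ) ≤ Z * X / (p : ℝ) ^ m := by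
          rw [le_div_iff₀ hpm, Nat.cast_natAbs, Int.cast_abs]
          linarith
        have h6 : H.natAbs ≤ K := by
          rw [hK]
          exact Nat.le_floor h5
        rw [Int.abs_eq_natAbs]
        exact_mod_cast h6
      have hmem : H ∈ HH := by
        rw [hHH, Finset.mem_erase, Finset.mem_Icc]
        exact ⟨hH0, abs_le.1 hHK⟩
      rw [Finset.sum_eq_single_of_mem H hmem]
      · rw [if_pos]
        rw [hH]
        push_cast
        ring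
      · intro H' _ hne'
        rw [if_neg]
        intro h7
        apply hne'
        rw [hH] at h7
        push_cast at h7
        have h8 : (p : ℤ) ^ m ≠ 0 := by
          have : (p : ℤ) ≠ 0 := by exact_mod_cast hp.ne_zero
          positivity
        exact (mul_left_cancel₀ h8 h7).symm
    · rw [if_neg hc]
      symm
      refine Finset.sum_eq_zero fun H hHm => ?_
      rw [if_neg]
      intro h7
      apply hc
      rw [hHH, Finset.mem_erase] at hHm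
      refine ⟨?_, ?_⟩
      · rw [ecast, h7]
        push_cast
        exact Dvd.intro_left ((g : ℤ) * H) (by ring)
      · intro h8
        have h9 : (g : ℤ) * ((a : ℤ) * n₁ - b * n₂) = 0 := by
          rw [← ecast]
          have : ((a * g * n₁ : ℕ) : ℤ) = ((b * g * n₂ : ℕ) : ℤ) := by rw [h8]
          push_cast at this ⊢
          linarith
        rw [h7] at h9
        have h10 : (g : ℤ) ≠ 0 := by exact_mod_cast hg.ne'
        have h11 : (p : ℤ) ^ m ≠ 0 := by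
          have : (p : ℤ) ≠ 0 := by exact_mod_cast hp.ne_zero
          positivity
        rcases mul_eq_zero.1 h9 with h12 | h12
        · exact h10 h12
        · rcases mul_eq_zero.1 h12 with h13 | h13
          · exact h11 h13
          · exact hHm.1 h13
  have hOD : OD χ m h N (a * g) (b * g) = ∑ H ∈ HH, ∑ n₁ ∈ Finset.Icc 1 N, ∑ n₂ ∈ Finset.Icc 1 N,
      if (a : ℤ) * n₁ - b * n₂ = (p : ℤ) ^ m * H then
        χ ((a * n₁ : ℕ) : ZMod (p ^ ν)) * (starRingEnd ℂ) (χ ((b * n₂ : ℕ) : ZMod (p ^ ν))) *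
          ((h (Real.log n₁) / Real.sqrt n₁ * (h (Real.log n₂) / Real.sqrt n₂) : ℝ) : ℂ) else 0 := by
    unfold OD
    rw [Finset.sum_congr rfl fun n₁ hn₁ => Finset.sum_congr rfl fun n₂ hn₂ => hterm n₁ hn₁ n₂ hn₂]
    rw [Finset.sum_congr rfl fun n₁ _ => Finset.sum_comm]
    exact Finset.sum_comm
  rw [hOD]
  refine (norm_sum_le _ _).trans ?_
  have hlog : 0 ≤ Real.log ((p : ℝ) ^ ν) := by
    refine Real.log_nonneg (one_le_pow₀ ?_)
    exact_mod_cast hp.one_le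
  have hB0 : 0 ≤ 10 * Real.sqrt p * Z * (1 + Λ) * (X / x ^ 2) *
      (2 * X * Real.sqrt (Z * X / (p : ℝ) ^ ν) +
        Real.sqrt ((p : ℝ) ^ ν / (p : ℝ) ^ m) * (3 + Real.log ((p : ℝ) ^ ν))) := by
    positivity
  refine (Finset.sum_le_card_nsmul _ _ (10 * Real.sqrt p * Z * (1 + Λ) * (X / x ^ 2) *
      (2 * X * Real.sqrt (Z * X / (p : ℝ) ^ ν) +
        Real.sqrt ((p : ℝ) ^ ν / (p : ℝ) ^ m) * (3 + Real.log ((p : ℝ) ^ ν)))) ?_).trans ?_
  · intro H hHm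
    rw [hHH, Finset.mem_erase, Finset.mem_Icc] at hHm
    have hHle : (p : ℝ) ^ m * |(H : ℝ)| ≤ Z * X := by
      have h5 : |H| ≤ (K : ℤ) := abs_le.2 hHm.2
      have h6 : |(H : ℝ)| ≤ (K : ℝ) := by exact_mod_cast h5
      have h7 := h6.trans hKle
      rw [le_div_iff₀ hpm] at h7
      linarith
    refine (h1 p ν m χ x X Λ Z h a b N H hp hp2 hm hν hχ hx hxX hXN hΛ hh hL hlo hhi ha1 hb1 haZ hbZ
      hab hap hbp hHm.1 (hHle.trans_lt hZX)).trans ?_
    have hs : Real.sqrt ((p : ℝ) ^ m * |(H : ℝ)| / (p : ℝ) ^ ν) ≤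
        Real.sqrt (Z * X / (p : ℝ) ^ ν) := by
      refine Real.sqrt_le_sqrt ?_
      exact div_le_div_of_nonneg_right hHle (by positivity)
    gcongr
  · rw [hcard, nsmul_eq_mul]
    refine mul_le_mul_of_nonneg_right ?_ hB0
    push_cast
    linarith

end Pool.Agent.Run7.h300.PV
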